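import Mathlib
import Pool.Agent.Helper11.QT.Main
import Pool.Agent.Helper11.QT.TInfGeo
import Pool.Agent.Helper11.QT.Check

/-!
# MP_f742c4_gt: quasisymmetric universality of `T_∞`

Every quasiconformal tree with uniformly relatively separated branch points embeds
quasisymmetrically into `T_∞`. All definitions are in `Pool/Agent/Helper11/QT/Defs.lean`.
-/

set_option autoImplicit false

namespace Pool.Agent.Results.MP_f742c4_gt.Universality

open Pool.Agent.QT

/-- Q1, answer YES: every quasiconformal tree with uniformly relatively separated branch points
admits a quasisymmetric embedding into `T_∞`. -/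
theorem result.{u} (T : Type u) [MetricSpace T] (hT : IsQuasiconformalTree T)
    (hsep : HasSeparatedBranchPoints T) : ∃ F : T → TInfty, IsQuasisymmetricEmbedding F :=
  universality hT hsep

end Pool.Agent.Results.MP_f742c4_gt.Universality
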